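import Pool.Agent.U167.SA.Stm8
import Pool.Agent.U669.SA.FUB

/-!
Project SA, package IND: two distant arms are independent.
-/

set_option autoImplicit false

namespace Pool.Agent.U416.SA

open H974 Filter Topology MeasureTheory
open Pool.Agent.U167.SA Pool.Agent.U97.SA Pool.Agent.U669.SA

/-- translation of edges by `(k,k)` -/
def shf (k : ℤ) : Edg ≃ Edg where
  toFun e := (e.1 + k, e.2.1 + k, e.2.2)
  invFun e := (e.1 - k, e.2.1 - k, e.2.2)
  left_inv e := by simp
  right_inv e := by simp

theorem tE_apply (k : ℤ) (ω : Om) (e : Edg) : tE k ω e = ω (shf k e) := rfl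

theorem measurable_tE (k : ℤ) : Measurable (tE k) := by
  apply measurable_pi_lambda
  intro e
  exact measurable_pi_apply (shf k e)

theorem mp_tE (k : ℤ) : MeasurePreserving (tE k) percE percE := by
  classical
  refine ⟨measurable_tE k, ?_⟩
  have key : percE.map (tE k) = Measure.infinitePi (fun _ : Edg =>
      (PMF.uniformOfFintype Bool).toMeasure) := by
    apply Measure.eq_infinitePi
    intro s t ht
    have h1 : MeasurableSet (Set.pi (s : Set Edg) t) :=
      MeasurableSet.pi s.countable_toSet (fun e he => ht e)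
    rw [Measure.map_apply (measurable_tE k) h1]
    have h2 : tE k ⁻¹' (Set.pi (s : Set Edg) t) =
        Set.pi ((s.map (shf k).toEmbedding : Finset Edg) : Set Edg) (fun e => t ((shf k).symm e)) := by
      ext ω
      simp only [Set.mem_preimage, Set.mem_pi, Finset.mem_coe, Finset.mem_map, Equiv.coe_toEmbedding]
      constructor
      · rintro h _ ⟨e, he, rfl⟩
        rw [Equiv.symm_apply_apply]
        exact h e he
      · intro h e he
        have := h (shf k e) ⟨e, he, rfl⟩
        rwa [Equiv.symm_apply_apply] at this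
    rw [h2]
    unfold percE
    rw [Measure.infinitePi_pi _ (fun e _ => ht _), Finset.prod_map]
    refine Finset.prod_congr rfl fun e _ => ?_
    have h3 : (shf k).symm ((shf k).toEmbedding e) = e := Equiv.symm_apply_apply _ _
    rw [h3]
  exact key

/-- the arm from `A` out of the box of radius `r` -/
def BB (r : ℕ) (A : Set Vtx) : Set Om := {ω | Cj ({e | ω e = true} ∩ D0) A {v | ¬ inB r v}}

theorem meas_BB (r : ℕ) (A : Set Vtx) : MeasurableSet (BB r A) := meas_Cj D0 A _

theorem PX_BB (r : ℕ) (A : Set Vtx) : PX D0 ∅ A {v | ¬ inB r v} [] = percE.real (BB r A) := by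
  unfold PX BB
  congr 1
  ext ω
  simp [Ev, Jn]

/-- the first exit of the box -/
theorem exit {r : ℕ} {X : Set Edg} {u v : Vtx} (h : Reach X u v) (hv : ¬ inB r v) :
    ∃ w, ¬ inB r w ∧ Reach (X ∩ ↑(boxE (r + 1))) u w := by
  induction h using Relation.ReflTransGen.head_induction_on with
  | refl => exact ⟨v, hv, Reach.refl _ _⟩
  | head hadj hrest ih =>
    rename_i a c
    obtain ⟨w, hw, hr⟩ := ih
    by_cases ha : inB r a
    · refine ⟨w, hw, Relation.ReflTransGen.head ?_ hr⟩
      obtain ⟨e, he, hends⟩ := hadj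
      refine ⟨e, ⟨he, ?_⟩, hends⟩
      obtain ⟨⟨h1, h2⟩, h3, h4⟩ := ha
      obtain ⟨x, y, b⟩ := e
      rw [Finset.mem_coe]
      unfold boxE
      push_cast
      rcases hends with ⟨hs, -⟩ | ⟨-, hs⟩
      · rw [src_mk] at hs
        subst hs
        cases b
        · simp only [mem_RE_false]; omega
        · simp only [mem_RE_true]; omega
      · cases b
        · rw [tgt_false] at hs
          subst hs
          simp only [mem_RE_false]; omega
        · rw [tgt_true] at hs
          subst hs
          simp only [mem_RE_true]; omega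
    · exact ⟨a, ha, Reach.refl _ _⟩

theorem BB_local {r : ℕ} {A : Set Vtx} {ω ω' : Om} (h : ∀ e ∈ boxE (r + 1), ω e = ω' e)
    (hω : ω ∈ BB r A) : ω' ∈ BB r A := by
  obtain ⟨u, hu, v, hv, hr⟩ := hω
  obtain ⟨w, hw, hr'⟩ := exit hr hv
  refine ⟨u, hu, w, hw, hr'.mono ?_⟩
  rintro e ⟨⟨he1, he2⟩, he3⟩
  refine ⟨?_, he2⟩
  show ω' e = true
  rw [← h e (Finset.mem_coe.1 he3)]
  exact he1

theorem reach_shift {k : ℤ} {X Y : Set Edg} (h : ∀ e ∈ X, (shf k).symm e ∈ Y) {u v : Vtx}
    (hr : Reach X u v) : Reach Y (u.1 - k, u.2 - k) (v.1 - k, v.2 - k) := by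
  induction hr with
  | refl => exact Reach.refl _ _
  | tail _ hadj ih =>
    refine ih.tail ?_
    obtain ⟨e, he, hends⟩ := hadj
    refine ⟨_, h e he, ?_⟩
    obtain ⟨x, y, b⟩ := e
    have e1 : (shf k).symm (x, y, b) = (x - k, y - k, b) := rfl
    rw [e1]
    rcases hends with ⟨rfl, rfl⟩ | ⟨rfl, rfl⟩
    · left
      refine ⟨rfl, ?_⟩
      cases b
      · show ((x - k, y - k + 1) : ℤ × ℤ) = (x - k, y + 1 - k)
        ext <;> simp <;> ring
      · show ((x - k + 1, y - k) : ℤ × ℤ) = (x + 1 - k, y - k)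
        ext <;> simp <;> ring
    · right
      refine ⟨rfl, ?_⟩
      cases b
      · show ((x - k, y - k + 1) : ℤ × ℤ) = (x - k, y + 1 - k)
        ext <;> simp <;> ring
      · show ((x - k + 1, y - k) : ℤ × ℤ) = (x + 1 - k, y - k)
        ext <;> simp <;> ring

theorem XE_sub {m : ℕ} {W : Finset Edg → Prop} {A : Set Vtx} {n k r : ℕ} (hk : k < n)
    (hr : r ≤ n - 1 - k) : XE m W A n k ⊆ tE k ⁻¹' BB r A := by
  rintro ω ⟨-, u, hu, v, hv, hre⟩
  refine ⟨(u.1 - k, u.2 - k), hu, (v.1 - k, v.2 - k), ?_, reach_shift ?_ hre⟩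
  · rintro ⟨⟨h1, h2⟩, h3, h4⟩
    have h5 : ht v = 2 * n - 2 * 0 := hv
    unfold ht at h5
    simp only at h2 h4
    omega
  · rintro ⟨x, y, b⟩ ⟨h1, h2⟩
    refine ⟨?_, ?_⟩
    · show tE k ω ((shf k).symm (x, y, b)) = true
      rw [tE_apply, Equiv.apply_symm_apply]
      exact h1
    · have e1 : (shf k).symm (x, y, b) = (x - k, y - k, b) := rfl
      rw [e1]
      obtain ⟨⟨h3, -, -⟩, h4, -, -⟩ := h2
      unfold D0 Dw
      unfold col at *
      refine ⟨?_, ?_⟩
      · simp only [src_mk] at h3 ⊢
        omega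
      · cases b
        · simp only [tgt_false] at h4 ⊢
          omega
        · simp only [tgt_true] at h4 ⊢
          omega

theorem indep_two (S : Finset Edg) (B B' : Set Om) (hB : MeasurableSet B) (hB' : MeasurableSet B')
    (h : ∀ ω ω' : Om, (∀ e ∈ S, ω e = ω' e) → ω ∈ B → ω' ∈ B)
    (h' : ∀ ω ω' : Om, (∀ e ∉ S, ω e = ω' e) → ω ∈ B' → ω' ∈ B') :
    percE.real (B ∩ B') = percE.real B * percE.real B' := by
  classical
  have h1 := (mp_glue S).measure_preimage (hB.inter hB').nullMeasurableSet
  have h2 : Pool.Agent.U669.SA.glue S ⁻¹' (B ∩ B') = B' ×ˢ B := by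
    ext p
    simp only [Set.mem_preimage, Set.mem_inter_iff, Set.mem_prod]
    have e1 : Pool.Agent.U669.SA.glue S p ∈ B ↔ p.2 ∈ B := by
      constructor
      · apply h
        intro e he
        unfold Pool.Agent.U669.SA.glue
        rw [if_pos he]
      · apply h
        intro e he
        unfold Pool.Agent.U669.SA.glue
        rw [if_pos he]
    have e2 : Pool.Agent.U669.SA.glue S p ∈ B' ↔ p.1 ∈ B' := by
      constructor
      · apply h'
        intro e he
        unfold Pool.Agent.U669.SA.glue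
        rw [if_neg he]
      · apply h'
        intro e he
        unfold Pool.Agent.U669.SA.glue
        rw [if_neg he]
    rw [e1, e2, and_comm]
  rw [measureReal_def, ← h1, h2, Measure.prod_prod, ENNReal.toReal_mul, mul_comm]
  rfl

theorem t_IND : IndStm := by
  intro m m' W W' A A' n k l r r' hk hl hr hr' hkl
  rw [PX_BB, PX_BB]
  have hk1 : percE.real (tE (k:ℤ) ⁻¹' BB r A) = percE.real (BB r A) := by
    rw [measureReal_def, (mp_tE k).measure_preimage (meas_BB r A).nullMeasurableSet]
    rfl
  have hl1 : percE.real (tE (l:ℤ) ⁻¹' BB r' A') = percE.real (BB r' A') := by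
    rw [measureReal_def, (mp_tE l).measure_preimage (meas_BB r' A').nullMeasurableSet]
    rfl
  rw [← hk1, ← hl1, ← indep_two ((boxE (r + 1)).map (shf k).toEmbedding) _ _
    (measurable_tE k (meas_BB r A)) (measurable_tE l (meas_BB r' A'))]
  · exact measureReal_mono (Set.inter_subset_inter (XE_sub hk hr) (XE_sub hl hr'))
  · intro ω ω' h hω
    refine BB_local (ω := tE k ω) (fun e he => ?_) hω
    rw [tE_apply, tE_apply]
    exact h _ (Finset.mem_map_of_mem _ he)
  · intro ω ω' h hω
    refine BB_local (ω := tE l ω) (fun e he => ?_) hω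
    rw [tE_apply, tE_apply]
    apply h
    intro hmem
    rw [Finset.mem_map] at hmem
    obtain ⟨e', he', heq⟩ := hmem
    obtain ⟨x, y, b⟩ := e
    obtain ⟨x', y', b'⟩ := e'
    have h1 : x' + k = x + l := congrArg (fun e : Edg => e.1) heq
    have h2 : y' + k = y + l := congrArg (fun e : Edg => e.2.1) heq
    have h3 : b' = b := congrArg (fun e : Edg => e.2.2) heq
    subst h3
    unfold boxE at he he'
    push_cast at he he'
    rcases abs_cases ((k:ℤ) - l) with ⟨ha, _⟩ | ⟨ha, _⟩
    · rw [ha] at hkl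
      cases b'
      · simp only [mem_RE_false] at he he'; omega
      · simp only [mem_RE_true] at he he'; omega
    · rw [ha] at hkl
      cases b'
      · simp only [mem_RE_false] at he he'; omega
      · simp only [mem_RE_true] at he he'; omega

end Pool.Agent.U416.SA
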